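import Mathlib
import Pool.Agent.H154Z.Clone.Defs

/-!
# Colourings of graphs on the Cantor space and ultrafilters in a model of set theory
-/

set_option autoImplicit false

namespace Pool.Agent.H154Z.Col

open Pool.Agent.Helper672.Plain (LSet Mem IsOrdPair)
open Pool.Agent.H154Z.Clone (IsNum)

universe u

/-- Some well-order of the vertices gives every vertex only finitely many earlier neighbours. -/
def CountableColouringNumber {X : Type} (Γ : SimpleGraph X) : Prop :=
  ∃ r : X → X → Prop, IsWellOrder X r ∧ ∀ y, {x | r x y ∧ Γ.Adj x y}.Finite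

variable (N : Type u) [LSet.Structure N]

/-- The reals of `N`: its sets of numerals. -/
def Reals : Type u := {x : N // ∀ z, Mem z x → ∃ i, IsNum i z}

variable {N}

open Classical in
/-- The point of the Cantor space given by a real of `N`. -/
noncomputable def pt (x : Reals N) : ℕ → Bool := fun i => decide (∃ z, IsNum i z ∧ Mem z x.1)

variable (N) in
/-- `N` contains a `k`-colouring of the graph `Γ` on the reals of `N`. -/
def HasColouring (Γ : SimpleGraph (ℕ → Bool)) (k : ℕ) : Prop :=
  ∃ (c : Reals N → Fin k) (γ : N),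
    (∀ p, Mem p γ ↔ ∃ (x : Reals N) (j : N), IsNum (c x) j ∧ IsOrdPair p x.1 j) ∧
    ∀ x y : Reals N, Γ.Adj (pt x) (pt y) → c x ≠ c y

/-- `U` is a nonprincipal ultrafilter on the natural numbers in `N`. -/
structure IsFreeUltrafilter (U : N) : Prop where
  sub : ∀ x, Mem x U → ∀ z, Mem z x → ∃ i, IsNum i z
  free : ∀ x : Reals N, {i | pt x i = true}.Finite → ¬ Mem x.1 U
  up : ∀ x y : Reals N, Mem x.1 U → (∀ i, pt x i = true → pt y i = true) → Mem y.1 U
  inter : ∀ x y z : Reals N, Mem x.1 U → Mem y.1 U → (∀ i, pt z i = (pt x i && pt y i)) →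
    Mem z.1 U
  ultra : ∀ x y : Reals N, (∀ i, pt y i = !pt x i) → Mem x.1 U ∨ Mem y.1 U

end Pool.Agent.H154Z.Col
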