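import Mathlib
import Pool.Agent.H154Z.Col.Defs

/-! The gadget graph. -/

set_option autoImplicit false

namespace Pool.Agent.H154Z.Col

/-- `x` is the `i`-th vertex of a triangle. -/
def Tag (x : ℕ → Bool) (i : Fin 3) : Prop :=
  x 0 = false ∧ ∀ j, (x (Nat.pair 0 j + 1) = true ↔ j = i)

/-- The three sets coded by `x`. -/
def sec (x : ℕ → Bool) (l : Fin 3) (j : ℕ) : Bool := x (Nat.pair (l + 1) j + 1)

/-- The three sets have a finite intersection and a cofinite union. -/
def Good (x : ℕ → Bool) : Prop :=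
  ∃ m, ∀ n, m ≤ n → (∃ l, sec x l n = true) ∧ ∃ l, sec x l n = false

/-- The same triangle. -/
def Same (x y : ℕ → Bool) : Prop := ∀ t j, x (Nat.pair (t + 1) j + 1) = y (Nat.pair (t + 1) j + 1)

/-- The oriented edges. -/
def Rel (x y : ℕ → Bool) : Prop :=
  ((∀ n, x n = false) ∧ y 0 = true) ∨
  (∃ i i' : Fin 3, i ≠ i' ∧ Tag x i ∧ Tag y i' ∧ Good x ∧ Same x y) ∨
  (∃ i : Fin 3, Tag y i ∧ Good y ∧ x 0 = true ∧ ∀ n, x (n + 1) = sec y i n)

theorem Tag.uniq {x : ℕ → Bool} {i i' : Fin 3} (h : Tag x i) (h' : Tag x i') : i = i' :=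
  Fin.ext ((h'.2 i).1 ((h.2 i).2 rfl))

theorem rel_irrefl (x : ℕ → Bool) : ¬ Rel x x := by
  rintro (⟨h, h'⟩ | ⟨i, i', h, h1, h2, -⟩ | ⟨i, h, -, h', -⟩)
  · simp [h 0] at h'
  · exact h (h1.uniq h2)
  · simp [h.1] at h'

/-- The graph. -/
def GG : SimpleGraph (ℕ → Bool) where
  Adj x y := Rel x y ∨ Rel y x
  symm := ⟨fun _ _ h => h.symm⟩
  loopless := ⟨fun x h => h.elim (rel_irrefl x) (rel_irrefl x)⟩

theorem meas_rel : Measurable fun p : (ℕ → Bool) × (ℕ → Bool) => Rel p.1 p.2 := by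
  have h1 : ∀ n (b : Bool), Measurable fun p : (ℕ → Bool) × (ℕ → Bool) => p.1 n = b := fun n b =>
    measurableSet_setOfPred.1 (measurableSet_eq_fun (by fun_prop) measurable_const)
  have h2 : ∀ n (b : Bool), Measurable fun p : (ℕ → Bool) × (ℕ → Bool) => p.2 n = b := fun n b =>
    measurableSet_setOfPred.1 (measurableSet_eq_fun (by fun_prop) measurable_const)
  have h3 : ∀ n m, Measurable fun p : (ℕ → Bool) × (ℕ → Bool) => p.1 n = p.2 m := fun n m =>
    measurableSet_setOfPred.1 (measurableSet_eq_fun (by fun_prop) (by fun_prop))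
  have t1 : ∀ i, Measurable fun p : (ℕ → Bool) × (ℕ → Bool) => Tag p.1 i := fun i =>
    (h1 _ _).and (Measurable.forall fun j => (h1 _ _).iff measurable_const)
  have t2 : ∀ i, Measurable fun p : (ℕ → Bool) × (ℕ → Bool) => Tag p.2 i := fun i =>
    (h2 _ _).and (Measurable.forall fun j => (h2 _ _).iff measurable_const)
  have g1 : Measurable fun p : (ℕ → Bool) × (ℕ → Bool) => Good p.1 :=
    Measurable.exists fun m => Measurable.forall fun n => measurable_const.imp
      ((Measurable.exists fun l => h1 _ _).and (Measurable.exists fun l => h1 _ _))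
  have g2 : Measurable fun p : (ℕ → Bool) × (ℕ → Bool) => Good p.2 :=
    Measurable.exists fun m => Measurable.forall fun n => measurable_const.imp
      ((Measurable.exists fun l => h2 _ _).and (Measurable.exists fun l => h2 _ _))
  exact ((Measurable.forall fun n => h1 _ _).and (h2 _ _)).or
    ((Measurable.exists fun i => Measurable.exists fun i' => measurable_const.and ((t1 i).and
      ((t2 i').and (g1.and (Measurable.forall fun t => Measurable.forall fun j => h3 _ _))))).or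
    (Measurable.exists fun i => (t2 i).and (g2.and ((h1 _ _).and
      (Measurable.forall fun n => h3 _ _)))))

theorem gg_borel : @MeasurableSet _ (borel ((ℕ → Bool) × (ℕ → Bool))) {p | GG.Adj p.1 p.2} := by
  rw [← BorelSpace.measurable_eq (α := (ℕ → Bool) × (ℕ → Bool))]
  exact measurableSet_setOfPred.2 (meas_rel.or (meas_rel.comp measurable_swap))

open Classical in
/-- The vertices of the triangle of three sets. -/
noncomputable def gad (a : Fin 3 → ℕ → Prop) (i : Fin 3) : ℕ → Bool := fun k =>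
  decide (∃ t j, k = Nat.pair t j + 1 ∧ ((t = 0 ∧ j = i) ∨ (t = 1 ∧ a 0 j) ∨ (t = 2 ∧ a 1 j) ∨
    (t = 3 ∧ a 2 j)))

theorem gad_pair (a : Fin 3 → ℕ → Prop) (i : Fin 3) (t j : ℕ) :
    gad a i (Nat.pair t j + 1) = true ↔ ((t = 0 ∧ j = i) ∨ (t = 1 ∧ a 0 j) ∨ (t = 2 ∧ a 1 j) ∨
      (t = 3 ∧ a 2 j)) := by
  simp only [gad, decide_eq_true_eq]
  constructor
  · rintro ⟨t', j', h, h'⟩
    obtain ⟨rfl, rfl⟩ := Nat.pair_eq_pair.1 (Nat.succ_injective h)
    exact h'
  · intro h
    exact ⟨t, j, rfl, h⟩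

theorem tag_gad (a : Fin 3 → ℕ → Prop) (i : Fin 3) : Tag (gad a i) i :=
  ⟨by simp [gad], fun j => by simp [gad_pair]⟩

theorem sec_gad (a : Fin 3 → ℕ → Prop) (i l : Fin 3) (j : ℕ) :
    sec (gad a i) l j = true ↔ a l j := by
  unfold sec
  rw [gad_pair]
  fin_cases l <;> simp

theorem same_gad (a : Fin 3 → ℕ → Prop) (i i' : Fin 3) : Same (gad a i) (gad a i') := by
  intro t j
  rw [Bool.eq_iff_iff, gad_pair, gad_pair]
  simp

theorem good_gad {a : Fin 3 → ℕ → Prop} (h : ∃ m, ∀ n, m ≤ n → (∃ l, a l n) ∧ ∃ l, ¬ a l n)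
    (i : Fin 3) : Good (gad a i) := by
  obtain ⟨m, h⟩ := h
  refine ⟨m, fun n hn => ?_⟩
  simp only [← Bool.not_eq_true, sec_gad]
  exact h n hn

theorem adj_gad {a : Fin 3 → ℕ → Prop} (h : ∃ m, ∀ n, m ≤ n → (∃ l, a l n) ∧ ∃ l, ¬ a l n)
    {i i' : Fin 3} (hi : i ≠ i') : GG.Adj (gad a i) (gad a i') :=
  Or.inl (Or.inr (Or.inl ⟨i, i', hi, tag_gad a i, tag_gad a i', good_gad h i, same_gad a i i'⟩))

theorem exists_kappa : ∀ v : Fin 3 → Fin 2, ∃ κ : Fin 3 → Fin 3,
    ((∃ l, v l = 0) ∧ ∃ l, v l = 1) → Function.Injective κ ∧ ∀ i, (κ i : ℕ) ≠ v i := by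
  decide

theorem gg_colorable : GG.Colorable 3 := by
  classical
  choose κ hκ using exists_kappa
  let 𝒰 := Filter.hyperfilter ℕ
  let lc : (ℕ → Bool) → Fin 2 := fun a => if {n | a n = true} ∈ 𝒰 then 0 else 1
  have hg : ∀ x, Good x → (∃ l, lc (sec x l) = 0) ∧ ∃ l, lc (sec x l) = 1 := by
    rintro x ⟨m, hm⟩
    have h0 : {n | m ≤ n} ∈ 𝒰 := Filter.mem_hyperfilter_of_finite_compl
      ((Set.finite_Iio m).subset fun n hn => by simpa using hn)
    constructor
    · by_contra h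
      have h1 : ∀ l, {n | sec x l n = true}ᶜ ∈ 𝒰 := fun l =>
        Ultrafilter.compl_mem_iff_notMem.2 fun h2 => h ⟨l, if_pos h2⟩
      obtain ⟨n, h2, h3⟩ := 𝒰.nonempty_of_mem (Filter.inter_mem h0 (Filter.iInter_mem.2 h1))
      obtain ⟨l, hl⟩ := (hm n h2).1
      exact Set.mem_iInter.1 h3 l hl
    · by_contra h
      have h1 : ∀ l, {n | sec x l n = true} ∈ 𝒰 := fun l => by
        by_contra h2
        exact h ⟨l, if_neg h2⟩
      obtain ⟨n, h2, h3⟩ := 𝒰.nonempty_of_mem (Filter.inter_mem h0 (Filter.iInter_mem.2 h1))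
      obtain ⟨l, hl⟩ := (hm n h2).2
      have h4 : sec x l n = true := Set.mem_iInter.1 h3 l
      simp [hl] at h4
  let col : (ℕ → Bool) → Fin 3 := fun x =>
    if x 0 = true then (lc fun n => x (n + 1)).castSucc
    else if h : ∃ i, Tag x i then κ (fun l => lc (sec x l)) h.choose else 2
  have c1 : ∀ x i, Tag x i → col x = κ (fun l => lc (sec x l)) i := by
    intro x i h
    have h1 : ∃ i, Tag x i := ⟨i, h⟩
    simp only [col, h.1, Bool.false_eq_true, if_false, dif_pos h1]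
    rw [h1.choose_spec.uniq h]
  have key : ∀ x y, Rel x y → col x ≠ col y := by
    rintro x y (⟨h, h'⟩ | ⟨i, i', h, h1, h2, h3, h4⟩ | ⟨i, h, h1, h2, h3⟩)
    · have h1 : ¬ ∃ i, Tag x i := fun ⟨i, hi⟩ => by
        have := (hi.2 i).2 rfl
        simp [h] at this
      simp only [col, h 0, h', Bool.false_eq_true, if_false, if_true, dif_neg h1]
      exact (Fin.castSucc_lt_last _).ne'
    · rw [c1 x i h1, c1 y i' h2]
      have h5 : sec y = sec x := by
        funext l j
        exact (h4 l j).symm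
      rw [h5]
      exact fun h6 => h ((hκ _ (hg x h3)).1 h6)
    · rw [c1 y i h]
      have h5 : (fun n => x (n + 1)) = sec y i := funext h3
      simp only [col, h2, if_true, h5]
      intro h6
      exact (hκ _ (hg y h1)).2 i (by rw [← h6]; rfl)
  exact ⟨SimpleGraph.Coloring.mk col fun h => h.elim (key _ _) fun h' => (key _ _ h').symm⟩

theorem gg_chromatic : GG.chromaticNumber = 3 := by
  refine le_antisymm gg_colorable.chromaticNumber_le ?_
  by_contra h
  have h1 : GG.chromaticNumber ≤ (2 : ℕ) := Order.le_of_lt_add_one (by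
    rw [not_le] at h
    exact h)
  obtain ⟨c⟩ := SimpleGraph.chromaticNumber_le_iff_colorable.1 h1
  have h2 : ∃ m, ∀ n, m ≤ n → (∃ l, (fun (l : Fin 3) (_ : ℕ) => l = 0) l n) ∧
      ∃ l, ¬ (fun (l : Fin 3) (_ : ℕ) => l = 0) l n := ⟨0, fun n _ => ⟨⟨0, rfl⟩, ⟨1, by simp⟩⟩⟩
  have h3 : Function.Injective fun i : Fin 3 => c (gad (fun (l : Fin 3) (_ : ℕ) => l = 0) i) :=
    fun i i' h4 => by
      by_contra h5
      exact c.valid (adj_gad h2 h5) h4
  have := Fintype.card_le_of_injective _ h3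
  simp at this

theorem gg_colnum : CountableColouringNumber GG := by
  classical
  let ρ : (ℕ → Bool) → ℕ := fun x => if ∀ n, x n = false then 0 else if x 0 = true then 1 else 2
  let r : (ℕ → Bool) → (ℕ → Bool) → Prop := fun x y =>
    Prod.Lex (· < ·) WellOrderingRel (ρ x, x) (ρ y, y)
  have hr : ∀ x y, r x y → ρ x ≤ ρ y := fun x y h => by
    rcases Prod.lex_iff.1 h with h | h
    · exact h.le
    · exact h.1.le
  have ρ0 : ∀ x, (∀ n, x n = false) → ρ x = 0 := fun x h => if_pos h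
  have ρ1 : ∀ x, x 0 = true → ρ x = 1 := fun x h => by
    have : ¬ ∀ n, x n = false := fun h' => by simp [h' 0] at h
    simp only [ρ, if_neg this, if_pos h]
  have ρ2 : ∀ x i, Tag x i → ρ x = 2 := fun x i h => by
    have : ¬ ∀ n, x n = false := fun h' => by
      have := (h.2 i).2 rfl
      simp [h'] at this
    simp only [ρ, if_neg this, h.1, Bool.false_eq_true, if_false]
  refine ⟨r, (⟨⟨fun x => (ρ x, x), fun x y h => congrArg Prod.snd h⟩, Iff.rfl⟩ :
    r ↪r Prod.Lex (· < ·) WellOrderingRel).isWellOrder, fun y => ?_⟩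
  let lit : Fin 3 → ℕ → Bool := fun i n => Nat.casesOn n true (sec y i)
  let ret : Fin 3 → ℕ → Bool := fun i n => Nat.casesOn n false fun k =>
    if (Nat.unpair k).1 = 0 then decide ((Nat.unpair k).2 = i) else y (k + 1)
  have hret : ∀ x i, Tag x i → Same x y → x = ret i := by
    intro x i h h'
    funext n
    rcases n with _ | k
    · exact h.1
    · obtain ⟨⟨t, j⟩, rfl⟩ := Nat.pairEquiv.surjective k
      change x (Nat.pair t j + 1) = if (Nat.unpair (Nat.pair t j)).1 = 0 then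
        decide ((Nat.unpair (Nat.pair t j)).2 = i) else y (Nat.pair t j + 1)
      rw [Nat.unpair_pair]
      rcases t with _ | t
      · rw [if_pos rfl, Bool.eq_iff_iff, h.2, decide_eq_true_eq]
      · rw [if_neg (Nat.succ_ne_zero t)]
        exact h' t j
  refine (((Set.finite_range lit).union (Set.finite_range ret)).insert fun _ => false).subset ?_
  rintro x ⟨h0, (⟨h, h'⟩ | ⟨i, i', h, h1, h2, h3, h4⟩ | ⟨i, h, h1, h2, h3⟩) |
    (⟨h, h'⟩ | ⟨i, i', h, h1, h2, h3, h4⟩ | ⟨i, h, h1, h2, h3⟩)⟩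
  · exact Or.inl (funext h)
  · exact Or.inr (Or.inr ⟨i, (hret x i h1 h4).symm⟩)
  · refine Or.inr (Or.inl ⟨i, funext fun n => ?_⟩)
    rcases n with _ | n
    · exact h2.symm
    · exact (h3 n).symm
  · have := hr x y h0
    rw [ρ0 y h, ρ1 x h'] at this
    omega
  · exact Or.inr (Or.inr ⟨i', (hret x i' h2 fun t j => (h4 t j).symm).symm⟩)
  · have := hr x y h0
    rw [ρ1 y h2, ρ2 x i h] at this
    omega

end Pool.Agent.H154Z.Col
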