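import Mathlib
import Pool.Agent.H154Z.Clone.Tup
import Pool.Agent.H154Z.Col.Graph

/-! A colouring of the gadget graph gives an ultrafilter. -/

set_option autoImplicit false
set_option linter.unreachableTactic false
set_option linter.unusedTactic false

namespace Pool.Agent.Helper672.ZFA.H154

open FirstOrder FirstOrder.Language H635 Pool.Agent.Helper672 Pool.Agent.H154Z.Clone
open Pool.Agent.H154Z.Col
open Pool.Agent.Helper672.Plain (LSet)
open Pool.Agent.H635Amen (ZF)

universe u

attribute [local instance] toL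

variable {N : Type u} [LSet.Structure N] [hM : IsModel N] [hS : Std N]

/-- An internal set of natural numbers as a real of the model. -/
noncomputable def toR (s : IPow N ℕ) : Reals N := ⟨code s, fun z hz => by
  obtain ⟨k, -, rfl⟩ := (mem_code_pow (M := N)).1 hz
  exact ⟨k, (isNum_iff k _).2 rfl⟩⟩

theorem pt_toR (s : IPow N ℕ) (k : ℕ) : pt (toR s) k = true ↔ k ∈ s := by
  simp only [pt, decide_eq_true_eq]
  constructor
  · rintro ⟨z, h1, h2⟩
    rw [isNum_iff] at h1
    subst h1
    exact (mem_code_iff (M := N) (a := k)).1 h2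
  · intro h
    exact ⟨_, (isNum_iff k _).2 rfl, (mem_code_iff (M := N) (a := k)).2 h⟩

theorem toR_surj (x : Reals N) : ∃ s, toR s = x := by
  refine ⟨⟨fun k => Mem (code k) x.1, ⟨x.1, fun _ => Iff.rfl⟩⟩, Subtype.ext
    (hM.ext _ _ trivial trivial fun z => mem_code_pow.trans ⟨?_, fun hz => ?_⟩)⟩
  · rintro ⟨k, hk, rfl⟩
    exact hk
  · obtain ⟨k, hk⟩ := x.2 z hz
    rw [isNum_iff] at hk
    subst hk
    exact ⟨k, hz, rfl⟩

theorem ultra_of_col (h : HasColouring N GG 3) : ∃ U : N, IsFreeUltrafilter U := by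
  obtain ⟨c, γ, hγ, hc⟩ := h
  have hcol : IntF N (fun s : IPow N ℕ => (c (toR s) : ℕ)) := by
    refine ⟨γ, fun q => (hγ _).trans ⟨?_, ?_⟩⟩
    · rintro ⟨x, j, h1, h2⟩
      obtain ⟨h3, h4⟩ := op_inj (ordPair_iff.1 h2)
      rw [isNum_iff] at h1
      have h5 : toR q.1 = x := Subtype.ext h3
      subst h5
      exact (num_inj (INat.ext (h4.trans h1))).symm
    · intro h1
      obtain ⟨s, j⟩ := q
      obtain rfl : (c (toR s) : ℕ) = j := h1
      exact ⟨toR s, _, (isNum_iff _ _).2 rfl, ordPair_iff.2 rfl⟩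
  have h0 : Int N (fun q : IPow N ℕ × ℕ => q.2 = 0 ∨ ∃ j, j ∈ q.1 ∧ q.2 = j + 1) := by (repeat' (first | with_reducible exact IntF.id | with_reducible exact IntF.fst' | with_reducible exact IntF.snd' | with_reducible exact IntF.const _ | with_reducible exact Int.const _ | assumption | with_reducible apply Int.and | with_reducible apply Int.or | with_reducible apply Int.not | with_reducible apply Int.imp | with_reducible apply Int.iff | with_reducible apply Int.eq | with_reducible apply Int.mem | with_reducible apply Int.ltN | with_reducible apply int_ltn | with_reducible apply int_len | with_reducible_and_instances apply Int.le | with_reducible apply Int.all | with_reducible apply Int.ex | with_reducible apply IntF.fst | with_reducible apply IntF.snd | with_reducible apply IntF.app | with_reducible apply IntF.inl | with_reducible apply IntF.inr | with_reducible apply intF_succ | with_reducible apply intF_pair | with_reducible apply intF_unpair | with_reducible apply int_bit | with_reducible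 apply intF_num | with_reducible_and_instances apply IntF.mul | with_reducible_and_instances apply IntF.add | with_reducible_and_instances apply IntF.smul | with_reducible apply IntF.val | with_reducible apply IntF.mk | with_reducible apply IntF.ite | (with_reducible refine Int.comp ?_ ?_; assumption) | (with_reducible refine Int.comp₂ ?_ ?_ ?_; assumption) | (with_reducible refine Int.comp₃ ?_ ?_ ?_ ?_; assumption) | (with_reducible refine Int.comp₄ ?_ ?_ ?_ ?_ ?_; assumption) | (with_reducible refine IntF.comp ?_ ?_; assumption) | (with_reducible refine IntF.comp₂ ?_ ?_ ?_; assumption) | (with_reducible refine IntF.comp₃ ?_ ?_ ?_ ?_; assumption) | with_reducible apply IntF.pair))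
  let lit : IPow N ℕ → IPow N ℕ := fun s => sep N fun k => k = 0 ∨ ∃ j, j ∈ s ∧ k = j + 1
  have hlit : IntF N lit :=
    IntF.sep (p := fun (s : IPow N ℕ) (k : ℕ) => k = 0 ∨ ∃ j, j ∈ s ∧ k = j + 1) h0
  have mlit : ∀ s k, k ∈ lit s ↔ k = 0 ∨ ∃ j, j ∈ s ∧ k = j + 1 := fun s k =>
    mem_sep (Int.slice (p := fun (s : IPow N ℕ) (k : ℕ) => k = 0 ∨ ∃ j, j ∈ s ∧ k = j + 1) h0 s)
  let χ : IPow N ℕ → Fin 3 := fun s => c (toR (lit s))
  let e : IPow N ℕ := ⟨fun _ => False, Int.const _⟩
  let o : IPow N ℕ := ⟨fun _ => True, Int.const _⟩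
  have l0 : ∀ s, pt (toR (lit s)) 0 = true := fun s => (pt_toR _ _).2 ((mlit s 0).2 (Or.inl rfl))
  have l1 : ∀ s n, pt (toR (lit s)) (n + 1) = true ↔ n ∈ s := fun s n => by
    rw [pt_toR, mlit]
    simp
  have hb : ∀ s, c (toR e) ≠ χ s := fun s => hc _ _ (Or.inl (Or.inl ⟨fun n => by
    rw [← Bool.not_eq_true, pt_toR]
    exact id, l0 s⟩))
  have nae : ∀ a₀ a₁ a₂ : IPow N ℕ, (∃ m, ∀ n, m ≤ n → (n ∈ a₀ ∨ n ∈ a₁ ∨ n ∈ a₂) ∧
      (¬ n ∈ a₀ ∨ ¬ n ∈ a₁ ∨ ¬ n ∈ a₂)) → ¬ (χ a₀ = χ a₁ ∧ χ a₁ = χ a₂) := by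
    rintro a₀ a₁ a₂ ⟨m, hm⟩ ⟨e1, e2⟩
    let a : Fin 3 → IPow N ℕ := ![a₀, a₁, a₂]
    have hg : ∃ m, ∀ n, m ≤ n → (∃ l, (fun l n => n ∈ a l) l n) ∧
        ∃ l, ¬ (fun l n => n ∈ a l) l n :=
      ⟨m, fun n hn => by simpa [a, Fin.exists_fin_succ] using hm n hn⟩
    have hi : ∀ i : Fin 3, Int N (fun k : ℕ => ∃ t j : ℕ, k = Nat.pair t j + 1 ∧
        ((t = 0 ∧ j = i) ∨ (t = 1 ∧ j ∈ a 0) ∨ (t = 2 ∧ j ∈ a 1) ∨ (t = 3 ∧ j ∈ a 2))) := by
      intro i
      (repeat' (first | with_reducible exact IntF.id | with_reducible exact IntF.fst' | with_reducible exact IntF.snd' | with_reducible exact IntF.const _ | with_reducible exact Int.const _ | assumption | with_reducible apply Int.and | with_reducible apply Int.or | with_reducible apply Int.not | with_reducible apply Int.imp | with_reducible apply Int.iff | with_reducible apply Int.eq | with_reducible apply Int.mem | with_reducible apply Int.ltN | with_reducible apply int_ltn | with_reducible apply int_len | with_reducible_and_instances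 apply Int.le | with_reducible apply Int.all | with_reducible apply Int.ex | with_reducible apply IntF.fst | with_reducible apply IntF.snd | with_reducible apply IntF.app | with_reducible apply IntF.inl | with_reducible apply IntF.inr | with_reducible apply intF_succ | with_reducible apply intF_pair | with_reducible apply intF_unpair | with_reducible apply int_bit | with_reducible apply intF_num | with_reducible_and_instances apply IntF.mul | with_reducible_and_instances apply IntF.add | with_reducible_and_instances apply IntF.smul | with_reducible apply IntF.val | with_reducible apply IntF.mk | with_reducible apply IntF.ite | (with_reducible refine Int.comp ?_ ?_; assumption) | (with_reducible refine Int.comp₂ ?_ ?_ ?_; assumption) | (with_reducible refine Int.comp₃ ?_ ?_ ?_ ?_; assumption) | (with_reducible refine Int.comp₄ ?_ ?_ ?_ ?_ ?_; assumption) | (with_reducible refine IntF.comp ?_ ?_; assumption) | (with_reducible refine IntF.comp₂ ?_ ?_ ?_; assumption) | (with_reducible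 refine IntF.comp₃ ?_ ?_ ?_ ?_; assumption) | with_reducible apply IntF.pair))
    have hp : ∀ i, pt (toR ⟨_, hi i⟩) = gad (fun l n => n ∈ a l) i := fun i => funext fun k => by
      rw [Bool.eq_iff_iff, pt_toR]
      simp only [gad, decide_eq_true_eq]
      exact Iff.rfl
    have h1 : ∀ i i', i ≠ i' → c (toR ⟨_, hi i⟩) ≠ c (toR ⟨_, hi i'⟩) := fun i i' h =>
      hc _ _ (by rw [hp, hp]; exact adj_gad hg h)
    have h2 : ∀ i, χ (a i) ≠ c (toR ⟨_, hi i⟩) := fun i => hc _ _ (by
      rw [hp]
      refine Or.inl (Or.inr (Or.inr ⟨i, tag_gad _ i, good_gad hg i, l0 _, fun n => ?_⟩))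
      rw [Bool.eq_iff_iff, l1, sec_gad])
    have h3 := h1 0 1 (by decide)
    have h4 := h1 0 2 (by decide)
    have h5 := h1 1 2 (by decide)
    have h6 : χ a₀ ≠ _ := h2 0
    have h7 : χ a₁ ≠ _ := h2 1
    have h8 : χ a₂ ≠ _ := h2 2
    omega
  have two : ∀ s t r, χ s ≠ χ t → χ r = χ s ∨ χ r = χ t := fun s t r h => by
    have h1 := hb s
    have h2 := hb t
    have h3 := hb r
    omega
  have cpl : ∀ s t : IPow N ℕ, (∀ n, n ∈ t ↔ ¬ n ∈ s) → χ s ≠ χ t := fun s t h h1 =>
    nae s s t ⟨0, fun n _ => by have := h n; tauto⟩ ⟨rfl, h1⟩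
  have hcp : ∀ s : IPow N ℕ, ∃ t : IPow N ℕ, ∀ n, n ∈ t ↔ ¬ n ∈ s := fun s =>
    ⟨⟨fun n => ¬ n ∈ s, s.int.not⟩, fun _ => Iff.rfl⟩
  have ho : ∀ n, n ∈ o := fun _ => trivial
  have hU : Int N (fun s => χ s = χ o) :=
    (Int.eq (IntF.comp hcol hlit) (IntF.const (χ o : ℕ))).congr fun s => Fin.val_inj
  have mU : ∀ s, Plain.Mem (toR s).1 hU.small.elt ↔ χ s = χ o := fun s =>
    hU.small.mem.trans ⟨fun ⟨t, h1, h2⟩ => (ITy.inj h2 : t = s) ▸ h1, fun h1 => ⟨s, h1, rfl⟩⟩
  refine ⟨hU.small.elt, fun x hx => ?_, fun x hx => ?_, fun x y hx h => ?_,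
    fun x y z hx hy h => ?_, fun x y h => ?_⟩
  · obtain ⟨s, -, rfl⟩ := hU.small.mem.1 hx
    exact (toR s).2
  · obtain ⟨s, rfl⟩ := toR_surj x
    rw [mU]
    obtain ⟨m, hm⟩ := hx.bddAbove
    refine fun h1 => nae s s o ⟨m + 1, fun n hn => ⟨Or.inr (Or.inr (ho n)), Or.inl fun h2 => ?_⟩⟩
      ⟨rfl, h1⟩
    have := hm ((pt_toR s n).2 h2)
    omega
  · obtain ⟨s, rfl⟩ := toR_surj x
    obtain ⟨t, rfl⟩ := toR_surj y
    simp only [pt_toR] at h
    rw [mU] at hx ⊢
    obtain ⟨t', ht'⟩ := hcp t
    have h1 := nae s t' o ⟨0, fun n _ => by have := h n; have := ht' n; have := ho n; tauto⟩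
    rcases two t t' o (cpl t t' ht') with h2 | h2
    · exact h2.symm
    · exact absurd ⟨hx.trans h2, h2.symm⟩ h1
  · obtain ⟨s, rfl⟩ := toR_surj x
    obtain ⟨t, rfl⟩ := toR_surj y
    obtain ⟨r, rfl⟩ := toR_surj z
    have h' : ∀ n, n ∈ r ↔ n ∈ s ∧ n ∈ t := fun n => by
      rw [← pt_toR, ← pt_toR, ← pt_toR, h, Bool.and_eq_true]
    rw [mU] at hx hy ⊢
    obtain ⟨r', hr'⟩ := hcp r
    have h1 := nae s t r' ⟨0, fun n _ => by have := h' n; have := hr' n; tauto⟩
    rcases two r r' o (cpl r r' hr') with h2 | h2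
    · exact h2.symm
    · exact absurd ⟨hx.trans hy.symm, hy.trans h2⟩ h1
  · obtain ⟨s, rfl⟩ := toR_surj x
    obtain ⟨t, rfl⟩ := toR_surj y
    have h' : ∀ n, n ∈ t ↔ ¬ n ∈ s := fun n => by
      rw [← pt_toR, ← pt_toR, h]
      simp
    rw [mU, mU]
    exact (two s t o (cpl s t h')).imp Eq.symm Eq.symm

omit hM hS in
theorem ultra_main (hz : Plain.Zermelo N) (ho : OmegaModel N) (h : HasColouring N GG 3) :
    ∃ U : N, IsFreeUltrafilter U := by
  have hM : IsModel N := isModel_of_zermelo hz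
  have hS : Std N := std_of_omega ho
  exact ultra_of_col h

end Pool.Agent.Helper672.ZFA.H154
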